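import Pool.Agent.H46.CH.DX

/-!
# Row TDA: blow-ups of trees without numbers
-/

set_option autoImplicit false

namespace Pool.Agent.H1.CHD

open Pool.Agent.H46.CH

section
variable {A : Type}

private theorem eqb {R : A → A → Prop} {b : A → ℕ} {p : ℕ → ℕ} (hp : ∀ i, 0 < i → p i < i)
    {x y : A} (h1 : b y = b x ∨ (0 < b y ∧ p (b y) = b x))
    (h2 : b x = b y ∨ (0 < b x ∧ p (b x) = b y)) : b x = b y := by
  rcases h1 with h1 | ⟨h1, h3⟩
  · exact h1.symm
  rcases h2 with h2 | ⟨h2, h4⟩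
  · exact h2
  have := hp _ h1
  have := hp _ h2
  omega

private theorem build [Finite A] {R : A → A → Prop} (hrefl : ∀ x, R x x)
    (heq : ∀ x y z, R x y → R y x → ((R x z ↔ R y z) ∧ (R z x ↔ R z y)))
    (hpar : ∀ x y z, R x z → ¬ R z x → R y z → ¬ R z y → R x y ∧ R y x)
    (r : A) (hreach : ∀ S : Set A, r ∈ S → (∀ x ∈ S, ∀ y, R x y → y ∈ S) → ∀ y, y ∈ S) :
    ∀ (n : ℕ) (X : Set A), Xᶜ.ncard = n → r ∈ X → (∀ y ∈ X, ∀ x, R x y → x ∈ X) →
      ∀ (b : A → ℕ) (T : ℕ) (p : ℕ → ℕ), (∀ i, (∃ x ∈ X, b x = i) ↔ i ≤ T) →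
        (∀ i, 0 < i → p i < i) →
        (∀ x ∈ X, ∀ y ∈ X, (R x y ↔ b y = b x ∨ (0 < b y ∧ p (b y) = b x))) →
        TreeBlowUp R := by
  classical
  intro n
  induction n using Nat.strong_induction_on with
  | _ n ih =>
  intro X hX hr hdown b T p hb hp hR
  by_cases hall : ∀ y, y ∈ X
  · refine ⟨T, b, p, fun i => ?_, hp, fun x y => hR x (hall x) y (hall y)⟩
    rw [← hb i]
    exact ⟨fun ⟨x, hx⟩ => ⟨x, hall x, hx⟩, fun ⟨x, _, hx⟩ => ⟨x, hx⟩⟩
  -- a new block
  have hex : ∃ x ∈ X, ∃ y, R x y ∧ y ∉ X := by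
    by_contra hcon
    push Not at hcon
    exact hall (hreach X hr fun x hx y hxy => hcon x hx y hxy)
  obtain ⟨x, hx, y, hxy, hy⟩ := hex
  have hyx : ¬ R y x := fun h => hy (hdown x hx y h)
  obtain ⟨Z, hZ⟩ : ∃ Z : Set A, Z = {z | R y z ∧ R z y} := ⟨_, rfl⟩
  have hyZ : y ∈ Z := by rw [hZ]; exact ⟨hrefl y, hrefl y⟩
  have hZX : ∀ z ∈ Z, z ∉ X := by
    intro z hz hzX
    rw [hZ] at hz
    exact hy (hdown z hzX y hz.1)
  have hZe : ∀ z ∈ Z, ∀ u, (R z u ↔ R y u) ∧ (R u z ↔ R u y) := by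
    intro z hz u
    rw [hZ] at hz
    exact heq z y u hz.2 hz.1
  have hbT : ∀ a ∈ X, b a ≤ T := fun a ha => (hb _).1 ⟨a, ha, rfl⟩
  have hpx : ∀ u, R u y → ¬ R y u → u ∈ X := by
    intro u h1 h2
    exact hdown x hx u (hpar u x y h1 h2 hxy hyx).1
  obtain ⟨b', hb'⟩ : ∃ b' : A → ℕ, b' = fun a => if a ∈ Z then T + 1 else b a := ⟨_, rfl⟩
  obtain ⟨p', hp'⟩ : ∃ p' : ℕ → ℕ, p' = fun i => if i = T + 1 then b x else p i := ⟨_, rfl⟩
  have hbZ : ∀ a ∈ Z, b' a = T + 1 := fun a ha => by rw [hb']; exact if_pos ha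
  have hbX : ∀ a ∈ X, b' a = b a := fun a ha => by
    rw [hb']
    exact if_neg fun h => hZX a h ha
  have hpT : p' (T + 1) = b x := by rw [hp']; exact if_pos rfl
  have hpi : ∀ i, i ≤ T → p' i = p i := fun i hi => by
    rw [hp']
    exact if_neg (by omega)
  refine ih (X ∪ Z)ᶜ.ncard ?_ (X ∪ Z) rfl (Or.inl hr) ?_ b' (T + 1) p' ?_ ?_ ?_
  · rw [← hX]
    refine Set.ncard_lt_ncard ?_ (Set.toFinite _)
    refine ⟨fun a ha h => ha (Or.inl h), fun h => ?_⟩
    exact h hy (Or.inr hyZ)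
  · rintro w (hw | hw) u huw
    · exact Or.inl (hdown w hw u huw)
    · have h1 := hZe w hw u
      have huy : R u y := h1.2.1 huw
      by_cases h2 : R y u
      · right
        rw [hZ]
        exact ⟨h2, huy⟩
      · exact Or.inl (hpx u huy h2)
  · intro i
    constructor
    · rintro ⟨a, ha | ha, rfl⟩
      · rw [hbX a ha]
        exact (hbT a ha).trans (Nat.le_succ T)
      · rw [hbZ a ha]
    · intro hi
      rcases Nat.lt_or_ge T i with h | h
      · exact ⟨y, Or.inr hyZ, by rw [hbZ y hyZ]; omega⟩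
      · obtain ⟨a, ha, hai⟩ := (hb i).2 h
        exact ⟨a, Or.inl ha, by rw [hbX a ha, hai]⟩
  · intro i hi
    rcases eq_or_ne i (T + 1) with rfl | h
    · rw [hpT]
      exact Nat.lt_succ_of_le (hbT x hx)
    · rw [hp']
      simp only [h, if_false]
      exact hp i hi
  · rintro u (hu | hu) v (hv | hv)
    · rw [hbX u hu, hbX v hv, hpi _ (hbT v hv)]
      exact hR u hu v hv
    · -- `u` old, `v` new
      rw [hbX u hu, hbZ v hv, hpT, (hZe v hv u).2]
      constructor
      · intro huy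
        have hyu : ¬ R y u := fun h => hy (hdown u hu y h)
        obtain ⟨h1, h2⟩ := hpar u x y huy hyu hxy hyx
        exact Or.inr ⟨Nat.succ_pos T, (eqb (R := R) hp ((hR u hu x hx).1 h1)
          ((hR x hx u hu).1 h2)).symm⟩
      · rintro (h | ⟨-, h⟩)
        · have := hbT u hu
          omega
        · have h1 : R u x := (hR u hu x hx).2 (Or.inl h)
          have h2 : R x u := (hR x hx u hu).2 (Or.inl h.symm)
          exact (heq u x y h1 h2).1.2 hxy
    · -- `u` new, `v` old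
      rw [hbX v hv, hbZ u hu, hpi _ (hbT v hv)]
      constructor
      · intro h
        exact absurd (hdown v hv u h) (hZX u hu)
      · have h1 := hbT v hv
        rintro (h | ⟨h, h2⟩)
        · omega
        · have := hp _ h
          omega
    · rw [hbZ u hu, hbZ v hv]
      refine ⟨fun _ => Or.inl rfl, fun _ => ?_⟩
      rw [(hZe u hu v).1]
      rw [hZ] at hv
      exact hv.1

end

/-- Row TDA. -/
theorem pf_TDA : Pool.Agent.H46.CH.T_TDA := by
  intro A _ _ R
  constructor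
  · rintro ⟨T, b, p, hb, hp, hR⟩
    have hbb : ∀ x y, R x y → R y x → b x = b y := fun x y h1 h2 =>
      eqb (R := R) hp ((hR x y).1 h1) ((hR y x).1 h2)
    refine ⟨fun x => (hR x x).2 (Or.inl rfl), fun x y z h1 h2 => ?_, fun x y z h1 h2 h3 h4 => ?_, ?_⟩
    · have h := hbb x y h1 h2
      constructor
      · rw [hR, hR, h]
      · rw [hR, hR, h]
    · have hx : p (b z) = b x := by
        rcases (hR x z).1 h1 with h | h
        · exact absurd ((hR z x).2 (Or.inl h.symm)) h2
        · exact h.2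
      have hy : p (b z) = b y := by
        rcases (hR y z).1 h3 with h | h
        · exact absurd ((hR z y).2 (Or.inl h.symm)) h4
        · exact h.2
      have hxy : b x = b y := hx.symm.trans hy
      exact ⟨(hR x y).2 (Or.inl hxy.symm), (hR y x).2 (Or.inl hxy)⟩
    · obtain ⟨r, hr⟩ := (hb 0).2 (Nat.zero_le T)
      refine ⟨r, fun y hy => ?_, fun S hrS hS y => ?_⟩
      · rcases (hR y r).1 hy with h | h
        · exact (hR r y).2 (Or.inl h.symm)
        · rw [hr] at h
          exact absurd h.1 (lt_irrefl 0)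
      · have key : ∀ n, ∀ y, b y = n → y ∈ S := by
          intro n
          induction n using Nat.strong_induction_on with
          | _ n ih =>
          intro y hy
          rcases Nat.eq_zero_or_pos n with h0 | h0
          · exact hS r hrS y ((hR r y).2 (Or.inl (by rw [hy, h0, hr])))
          · have h1 := hp n h0
            have h2 : n ≤ T := by
              rw [← hy]
              exact (hb _).1 ⟨y, rfl⟩
            obtain ⟨x, hx⟩ := (hb (p n)).2 (by omega)
            exact hS x (ih _ h1 x hx) y ((hR x y).2 (Or.inr ⟨by rw [hy]; exact h0, by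
              rw [hy, hx]⟩))
        exact key _ y rfl
  · rintro ⟨hrefl, heq, hpar, r, hroot, hreach⟩
    have hre : ∀ z, R r z ∧ R z r → ∀ u, (R z u ↔ R r u) ∧ (R u z ↔ R u r) := by
      intro z hz u
      exact heq z r u hz.2 hz.1
    refine build hrefl heq hpar r hreach _ {z | R r z ∧ R z r} rfl ⟨hrefl r, hrefl r⟩ ?_
      (fun _ => 0) 0 (fun _ => 0) ?_ (fun i hi => hi) ?_
    · intro y hy x hxy
      have h1 := ((hre y hy x).2).1 hxy
      exact ⟨hroot x h1, h1⟩
    · intro i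
      constructor
      · rintro ⟨x, -, hx⟩
        omega
      · intro hi
        exact ⟨r, ⟨hrefl r, hrefl r⟩, by omega⟩
    · intro x hx y hy
      refine ⟨fun _ => Or.inl rfl, fun _ => ?_⟩
      exact ((hre x hx y).1).2 hy.1

end Pool.Agent.H1.CHD
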