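import Pool.Agent.H46.CH.DU
import Pool.Agent.H8.CH.UG

/-!
# Row TUG: the upper bound for grammars
-/

set_option autoImplicit false

namespace Pool.Agent.H1.CHD

open Classical Pool.Agent.H8.VR Pool.Agent.H69.VR Pool.Agent.H46.CH
open Pool.Agent.H8.JS (NTM Cfg Mv lang num)
open Pool.Agent.H8.CH (num_lt num_pos')

section
variable {N Q L T O C : Type} [Fintype Q] [Fintype L] [Fintype T] [Fintype C]

/-- the tree of a generated structure with all its elements -/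
private theorem root_tree (hTUA : T_TUA) (S : Sg N Q L T O) (K : Cp C) (Ok : St L T C → Prop)
    (s₀ : N) (M n : ℕ) (hn : n < M) (c : Ix Q L T C → ℕ) (h1 : RF S K s₀ c) (h2 : tot c = n)
    (h3 : ∀ σ, c σ ≠ 0 → Ok σ.2) (v : VI Q L T C → ℕ) :
    ∃ k ≤ 10 * n ^ 2 + 1, DTr S K Ok s₀ M n .root v k := by
  obtain ⟨k, hk, h4⟩ := hTUA N Q L T O C S K Ok s₀ M n hn s₀ c h1 h2.le
  refine ⟨k + 1, by rw [h2] at hk; omega, ?_⟩
  have h0 : 0 < M := by omega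
  have hc : ∀ σ, c σ < M := fun σ =>
    lt_of_le_of_lt (Finset.single_le_sum (f := c) (fun _ _ => Nat.zero_le _) (Finset.mem_univ σ))
      (by rw [← h2] at hn; exact hn)
  exact AuT.st (src := TEd.src S) (tgt := TEd.tgt (C := C) S s₀) (br := TSt.br) (s₁ := .fin)
    (P := TEd.P S K Ok) (.root) v (fun _ => 0) (Sum.elim c fun _ => 0) k rfl (fun _ => h0)
    (by rintro (σ | σ)
        · exact hc σ
        · exact h0) ⟨h2, h3⟩ (h4 _ fun _ => rfl)

end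

private theorem size_le (n l : ℕ) (h : n < 2 ^ (l + 1)) : 10 * n ^ 2 + 1 ≤ 2 ^ (6 * (l + 1)) := by
  set m := 2 ^ (l + 1) with hm
  have h2 : 2 ≤ m := by
    rw [hm, pow_succ]
    have : 1 ≤ 2 ^ l := Nat.one_le_two_pow
    omega
  have e : 2 ^ (6 * (l + 1)) = m ^ 6 := by rw [hm, ← pow_mul, mul_comm]
  rw [e]
  have h3 : n ^ 2 < m ^ 2 := Nat.pow_lt_pow_left h (by norm_num)
  have h4 : 2 ^ 4 ≤ m ^ 4 := Nat.pow_le_pow_left h2 4
  have h5 : m ^ 6 = m ^ 4 * m ^ 2 := by ring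
  have h6 : 2 ^ 4 * m ^ 2 ≤ m ^ 4 * m ^ 2 := Nat.mul_le_mul_right _ h4
  rw [h5]
  omega

/-- Row TUG. -/
theorem pf_TUG (hN2 : T_N2) (hMM : T_MM) (hAUT : T_AUT) (hTRG : T_TRG) (hTUA : T_TUA)
    (hTUB : T_TUB) : Pool.Agent.H46.CH.T_TUG := by
  intro N Q _ _ G hT m s₀ φ
  obtain ⟨L, T, C, O, _, _, _, _, _, _, S, K, Ok, hO, hn⟩ := hN2 N Q G m s₀ φ
  have hST : STriv S := by
    intro o x y hx hy
    obtain ⟨p, hp, e1, e2, e3, e4, e5, e6⟩ := hO o
    rw [e6]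
    exact hT p hp x y hx hy
  haveI := TSt.finite N O
  haveI := TEd.finite N Q L T O C
  have key := hAUT (TSt N O) (VI Q L T C) (Ix Q L T C × T) (TEd N Q L T O C) (TEd.src S)
    (TEd.tgt (C := C) S s₀) TSt.br .root .fin (TEd.P S K Ok) 6
    (fun e => hTRG N Q L T O C S K Ok e) rfl (by
      intro x v k hv h
      obtain ⟨c, h1, h2, h3⟩ := hTUB N Q L T O C S K Ok s₀ _ _ hST v k h
      obtain ⟨k', hk', h4⟩ := root_tree hTUA S K Ok s₀ _ _ (num_lt x) c h1 h2 h3 v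
      exact ⟨v, hv, k', hk'.trans (size_le _ _ (num_lt x)), h4⟩)
  have e : {x : List Bool | ∃ (v : VI Q L T C → ℕ) (k : ℕ), (∀ i, v i < 2 ^ (x.length + 1)) ∧
      AuT (TEd.src S) (TEd.tgt (C := C) S s₀) TSt.br .fin (TEd.P S K Ok) (2 ^ (x.length + 1))
        (num x) .root v k} = lang (specG G m s₀ φ) := by
    ext x
    simp only [lang, Set.mem_ofPred_eq]
    rw [hn (num x), hMM N Q L T O C S K s₀ Ok (num x)]
    constructor
    · rintro ⟨v, k, hv, h⟩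
      exact ⟨num_pos' x, hTUB N Q L T O C S K Ok s₀ _ _ hST v k h⟩
    · rintro ⟨-, c, h1, h2, h3⟩
      obtain ⟨k', -, h4⟩ := root_tree hTUA S K Ok s₀ _ _ (num_lt x) c h1 h2 h3 (fun _ => 0)
      exact ⟨fun _ => 0, k', fun _ => by positivity, h4⟩
  rw [← e]
  exact key

end Pool.Agent.H1.CHD
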